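import Pool.Agent.H20.PT.Lin

/-!
# Project PT: the bound of `X` from the bound of `(1 - X)⁻¹` for `X^p → 0` (`S_DET`)
-/

set_option autoImplicit false

open Filter Set Metric Topology

namespace Pool.Agent.H93.PT.Det

open Pool.Agent.H20.PT

lemma prod_bound (s : Multiset ℂ) (f : ℂ → ℂ) (h : ∀ a ∈ s, ‖f a‖ ≤ 2) :
    ‖(s.map f).prod‖ ≤ 2 ^ Multiset.card s := by
  induction s using Multiset.induction with
  | empty => simp
  | cons a s ih =>
    rw [Multiset.map_cons, Multiset.prod_cons, norm_mul, Multiset.card_cons, pow_succ, mul_comm]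
    exact mul_le_mul (ih fun b hb => h b (Multiset.mem_cons_of_mem hb))
      (h a (Multiset.mem_cons_self a s)) (norm_nonneg _) (by positivity)

lemma root_lt {ι : Type} [Fintype ι] [DecidableEq ι] (A : Matrix ι ι ℂ)
    (hA : ∀ i j, Tendsto (fun p : ℕ => (A ^ p) i j) atTop (𝓝 0)) (μ : ℂ)
    (h : μ ∈ A.charpoly.roots) : ‖μ‖ < 1 := by
  have h0 : A.charpoly.eval μ = 0 := (Polynomial.mem_roots'.1 h).2
  rw [Matrix.eval_charpoly] at h0
  obtain ⟨v, hv, hv2⟩ := Matrix.exists_mulVec_eq_zero_iff.2 h0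
  have h1 : A.mulVec v = μ • v := by
    rw [Matrix.sub_mulVec] at hv2
    have := sub_eq_zero.1 hv2
    rw [← this]
    ext i
    simp [Matrix.scalar_apply, Matrix.mulVec_diagonal]
  have h2 : ∀ p : ℕ, (A ^ p).mulVec v = μ ^ p • v := by
    intro p
    induction p with
    | zero => simp
    | succ p ih => rw [pow_succ, ← Matrix.mulVec_mulVec, h1, Matrix.mulVec_smul, ih, smul_smul,
        pow_succ, mul_comm]
  obtain ⟨i, hi⟩ : ∃ i, v i ≠ 0 := by
    by_contra hcon
    push Not at hcon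
    exact hv (funext hcon)
  have h3 : Tendsto (fun p : ℕ => μ ^ p * v i) atTop (𝓝 0) := by
    have e : ∀ p : ℕ, μ ^ p * v i = ∑ j, (A ^ p) i j * v j := by
      intro p
      have := congrFun (h2 p) i
      simp only [Matrix.mulVec, dotProduct, Pi.smul_apply, smul_eq_mul] at this
      exact this.symm
    simp only [e]
    have : Tendsto (fun p : ℕ => ∑ j, (A ^ p) i j * v j) atTop (𝓝 (∑ j : ι, 0 * v j)) :=
      tendsto_finsetSum _ fun j _ => (hA i j).mul_const _
    simpa using this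
  have h4 : Tendsto (fun p : ℕ => μ ^ p) atTop (𝓝 0) := by
    have := h3.mul_const (v i)⁻¹
    simp only [mul_assoc, mul_inv_cancel₀ hi, mul_one, zero_mul] at this
    exact this
  exact tendsto_pow_atTop_nhds_zero_iff_norm_lt_one.1 h4

lemma det_bound {ι : Type} [Fintype ι] [DecidableEq ι] (A : Matrix ι ι ℝ)
    (hA : ∀ i j, Tendsto (fun p : ℕ => (A ^ p) i j) atTop (𝓝 0)) :
    |(1 - A).det| ≤ 2 ^ Fintype.card ι := by
  set B : Matrix ι ι ℂ := (algebraMap ℝ ℂ).mapMatrix A with hB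
  have hBA : ∀ i j, Tendsto (fun p : ℕ => (B ^ p) i j) atTop (𝓝 0) := by
    intro i j
    have e : ∀ p : ℕ, (B ^ p) i j = (((A ^ p) i j : ℝ) : ℂ) := by
      intro p
      rw [hB, ← map_pow]
      rfl
    simp only [e]
    have := (Complex.continuous_ofReal.tendsto 0).comp (hA i j)
    rw [Complex.ofReal_zero] at this
    exact this
  have h1 : ((1 - A).det : ℂ) = B.charpoly.eval 1 := by
    rw [Matrix.eval_charpoly, map_one, hB, ← map_one (algebraMap ℝ ℂ).mapMatrix, ← map_sub]
    exact (RingHom.map_det (algebraMap ℝ ℂ) (1 - A))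
  have h2 : ‖((1 - A).det : ℂ)‖ ≤ 2 ^ Fintype.card ι := by
    have hs : B.charpoly.Splits := IsAlgClosed.splits _
    rw [h1, hs.eval_eq_prod_roots_of_monic (Matrix.charpoly_monic B)]
    refine (prod_bound _ _ ?_).trans (le_of_eq ?_)
    · intro μ hμ
      have := root_lt B hBA μ hμ
      calc ‖1 - μ‖ ≤ ‖(1 : ℂ)‖ + ‖μ‖ := norm_sub_le _ _
        _ ≤ 2 := by rw [norm_one]; linarith
    · rw [← hs.natDegree_eq_card_roots, Matrix.charpoly_natDegree_eq_dim]
  rw [Complex.norm_real] at h2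
  exact h2

theorem main : S_DET := by
  intro E _ _ _ η hη
  set b := Module.finBasis ℝ E with hb
  set d := Module.finrank ℝ E with hd
  -- the adjugate as a continuous map
  let g : (E →L[ℝ] E) → (E →L[ℝ] E) := fun Y => LinearMap.toContinuousLinearMap
    (Matrix.toLin b b (LinearMap.toMatrix b b (Y : E →ₗ[ℝ] E)).adjugate)
  have hg : Continuous g := by
    have h1 : Continuous fun Y : E →L[ℝ] E => LinearMap.toMatrix b b (Y : E →ₗ[ℝ] E) :=
      LinearMap.continuous_of_finiteDimensional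
        ((LinearMap.toMatrix b b).toLinearMap ∘ₗ (ContinuousLinearMap.coeLM ℝ))
    have h2 : Continuous fun N : Matrix (Fin d) (Fin d) ℝ =>
        (LinearMap.toContinuousLinearMap (Matrix.toLin b b N) : E →L[ℝ] E) :=
      LinearMap.continuous_of_finiteDimensional
        ((LinearMap.toContinuousLinearMap (𝕜 := ℝ) (E := E) (F' := E)).toLinearMap ∘ₗ
          (Matrix.toLin b b).toLinearMap)
    exact h2.comp h1.matrix_adjugate
  have : ProperSpace (E →L[ℝ] E) := FiniteDimensional.proper_real _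
  obtain ⟨C, hC⟩ := (isCompact_closedBall (0 : E →L[ℝ] E) (1 / η)).exists_bound_of_continuousOn
    hg.continuousOn
  refine ⟨1 + 2 ^ d * |C|, ?_⟩
  intro X hX hv
  have hinj : Function.Injective ((1 - X : E →L[ℝ] E) : E →ₗ[ℝ] E) := by
    rw [injective_iff_map_eq_zero]
    intro v h0
    have h1 : v - X v = 0 := by simpa using h0
    have h2 := hv v
    rw [h1, norm_zero] at h2
    have h3 : ‖v‖ ≤ 0 := by
      by_contra hcon
      push Not at hcon
      nlinarith
    exact norm_le_zero_iff.1 h3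
  let e := LinearEquiv.ofInjectiveEndo _ hinj
  let Y : E →L[ℝ] E := LinearMap.toContinuousLinearMap (e.symm : E →ₗ[ℝ] E)
  have he : ∀ v, e v = v - X v := fun v => rfl
  have hYn : ‖Y‖ ≤ 1 / η := by
    refine ContinuousLinearMap.opNorm_le_bound _ (by positivity) fun w => ?_
    have h1 := hv (Y w)
    have h2 : Y w - X (Y w) = w := by
      rw [← he]
      exact e.apply_symm_apply w
    rw [h2] at h1
    rw [one_div, inv_mul_eq_div, le_div_iff₀ hη]
    linarith
  have hgY : ‖g Y‖ ≤ C := hC Y (by simpa using hYn)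
  set N : Matrix (Fin d) (Fin d) ℝ := LinearMap.toMatrix b b ((1 - X : E →L[ℝ] E) : E →ₗ[ℝ] E)
    with hN
  set Z : Matrix (Fin d) (Fin d) ℝ := LinearMap.toMatrix b b (Y : E →ₗ[ℝ] E) with hZ
  have hNZ : N * Z = 1 := by
    rw [hN, hZ, ← LinearMap.toMatrix_comp, ← LinearMap.toMatrix_id b]
    congr 1
    ext w
    exact e.apply_symm_apply w
  have hdet : N.det * Z.det = 1 := by rw [← Matrix.det_mul, hNZ, Matrix.det_one]
  have hNadj : N = N.det • Z.adjugate := by
    have h1 : Z * Z.adjugate = Z.det • 1 := Matrix.mul_adjugate Z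
    calc N = N * (N.det * Z.det) • (1 : Matrix (Fin d) (Fin d) ℝ) := by rw [hdet]; simp
      _ = N.det • (N * (Z.det • 1)) := by rw [mul_smul, Matrix.mul_smul]
      _ = N.det • (N * (Z * Z.adjugate)) := by rw [h1]
      _ = N.det • Z.adjugate := by rw [← Matrix.mul_assoc, hNZ, Matrix.one_mul]
  have hXg : (1 - X : E →L[ℝ] E) = N.det • g Y := by
    have h1 : ((1 - X : E →L[ℝ] E) : E →ₗ[ℝ] E) = N.det • Matrix.toLin b b Z.adjugate := by
      rw [← map_smul, ← hNadj, hN, Matrix.toLin_toMatrix]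
    ext v
    have := congrArg (fun f : E →ₗ[ℝ] E => f v) h1
    exact this
  have hNdet : |N.det| ≤ 2 ^ d := by
    have hN1 : N = 1 - LinearMap.toMatrix b b (X : E →ₗ[ℝ] E) := by
      rw [hN, ← LinearMap.toMatrix_id b, ← map_sub]
      rfl
    rw [hN1]
    have := det_bound (LinearMap.toMatrix b b (X : E →ₗ[ℝ] E)) ?_
    · simpa using this
    · intro i j
      have h1 : Continuous fun Y : E →L[ℝ] E => LinearMap.toMatrix b b (Y : E →ₗ[ℝ] E) i j :=
        LinearMap.continuous_of_finiteDimensional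
          ((Matrix.entryLinearMap ℝ ℝ i j) ∘ₗ
            ((LinearMap.toMatrix b b).toLinearMap ∘ₗ (ContinuousLinearMap.coeLM ℝ)))
      have h2 := (h1.tendsto 0).comp hX
      have h3 : ∀ p : ℕ, (LinearMap.toMatrix b b (X : E →ₗ[ℝ] E) ^ p) i j =
          LinearMap.toMatrix b b ((X ^ p : E →L[ℝ] E) : E →ₗ[ℝ] E) i j := by
        intro p
        have e1 : ((X ^ p : E →L[ℝ] E) : E →ₗ[ℝ] E) = (X : E →ₗ[ℝ] E) ^ p := by
          ext v; simp
        rw [LinearMap.toMatrix_pow, e1]
      have e0 : LinearMap.toMatrix b b ((0 : E →L[ℝ] E) : E →ₗ[ℝ] E) i j = 0 := by simp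
      rw [e0] at h2
      simp only [h3]
      exact h2
  have h1 : ‖(1 - X : E →L[ℝ] E)‖ ≤ 2 ^ d * |C| := by
    rw [hXg, norm_smul]
    exact mul_le_mul hNdet (hgY.trans (le_abs_self C)) (norm_nonneg _) (by positivity)
  have h2 : ‖X‖ ≤ ‖(1 : E →L[ℝ] E)‖ + ‖(1 - X : E →L[ℝ] E)‖ := by
    have : X = 1 - (1 - X) := by abel
    conv_lhs => rw [this]
    exact norm_sub_le _ _
  have h3 : ‖(1 : E →L[ℝ] E)‖ ≤ 1 := ContinuousLinearMap.norm_id_le
  linarith

end Pool.Agent.H93.PT.Det
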